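import Mathlib
import Pool.Agent.N778.EM.FinalQ

set_option autoImplicit false

/-!
# `π`, odd zeta values and incomplete zeta integrals: joint measures of transcendence over `ℚ(e)`

For an integer `k ≥ 2` let `ω = exp (2 π i / k)`. For a rational number `x ≥ 0` let `R_k(x)` be the integral
`(-1)^k / k! * ∫ (∑_j ω^j log t_j)^k exp (-∑_j t_j) dt` over the part `(0, ∞)^k \ (0, x)^k` of the octant.

A family of real numbers `v_i` (`i ∈ ν`) has a *joint measure* over `ℚ(e)` if for every `D` there are `κ` and `c > 0`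
such that for all `H ≥ 1` and all nonzero polynomials `P_i` (`i ∈ ν`) in two variables with integral coefficients, of
total degree at most `D` and with coefficients at most `H` in absolute value
`max_i |P_i(v_i, e)| ≥ c / H^κ`.

(1) `R_k(x)` is real and `R_k(0) = ζ(k)`.

(2) Let `y_1, …, y_r` be real numbers and `K` a set of integers `k ≥ 2` for which `ζ(k)` is algebraic
over `ℚ(e, y_1, …, y_r)`. Any `r + 1` of the numbers `y_1, …, y_r` and `R_k(x)` (`k ∈ K`, `x` positive rational) have a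
joint measure over `ℚ(e)`. For instance any two of the numbers `R_k(x)`, `x ≥ 0` rational, have one, for every fixed
`k ≥ 2`.

(3) For `c ≥ 0` any `c + 2` of the numbers `π, ζ(3), ζ(5), …, ζ(2c+1)` and `R_k(x)` (`k ≥ 2`, `k` even
or `k ≤ 2c + 1`, `x` positive rational) have a joint measure over `ℚ(e)`.

(4) Let `c ≥ 0` and let the transcendence degree of the field `ℚ(e, π, ζ(3), ζ(5), …, ζ(2c+1))` be at most `t + 1`. Any
`t + 1` of the numbers `R_k(x)` (`k ≥ 2`, `k` even or `k ≤ 2c + 1`, `x` positive rational) have a joint measure over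
`ℚ(e)`.

(5) So for every `c ≥ 0` the numbers `π, ζ(3), ζ(5), …, ζ(2c+1)` are algebraically independent over `ℚ`, or any `c + 1`
of the numbers `R_k(x)` (`k ≥ 2`, `k` even or `k ≤ 2c + 1`, `x` positive rational) have a joint measure over `ℚ(e)`.
-/

namespace Pool.Agent.Results.MP_a89d6d_nt.IncompleteZetaMeasure

open Set MeasureTheory

/-- the zeta value `ζ(s) = ∑ 1 / n^s` -/
noncomputable def zeta (s : ℕ) : ℝ := ∑' n : ℕ, 1 / ((n : ℝ) + 1) ^ s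

/-- `ω = exp (2 π i / k)` -/
noncomputable def root (k : ℕ) : ℂ := Complex.exp (2 * Real.pi * Complex.I / k)

/-- `(∑_j ω^j log t_j)^k exp (-∑_j t_j)` -/
noncomputable def integrand (k : ℕ) (t : Fin k → ℝ) : ℂ :=
  (∑ j : Fin k, root k ^ (j : ℕ) * (Real.log (t j) : ℂ)) ^ k * ((Real.exp (-∑ j, t j) : ℝ) : ℂ)

/-- `(0, ∞)^k \ (0, x)^k` -/
def rest (k : ℕ) (x : ℝ) : Set (Fin k → ℝ) := {t | (∀ j, 0 < t j) ∧ ∃ j, x ≤ t j}

/-- `R_k(x)`, as a complex number -/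
noncomputable def tailIntegral (k : ℕ) (x : ℚ) : ℂ := (-1) ^ k / k.factorial * ∫ t in rest k x, integrand k t

/-- `R_k(x)`, as a real number -/
noncomputable def R (k : ℕ) (x : ℚ) : ℝ := (tailIntegral k x).re

/-- `x` is algebraic over `ℚ(e, y_1, …, y_r)` -/
def AlgebraicOverEAnd {r : ℕ} (y : Fin r → ℝ) (x : ℝ) : Prop :=
  IsAlgebraic (IntermediateField.adjoin ℚ ({Real.exp 1} ∪ range y)) x

/-- the numbers `π, ζ(3), ζ(5), …, ζ(2c+1)` -/
noncomputable def constants (c : ℕ) : Fin (c + 1) → ℝ := Fin.cons Real.pi fun i : Fin c => zeta (2 * i + 3)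

/-- The numbers `v_i` have a joint measure over `ℚ(e)`: for every `D` there are `κ` and `c > 0` such that for all
nonzero integral polynomials `P_i` in two variables, of degree at most `D` and with coefficients at most `H ≥ 1` in
absolute value, one of the numbers `P_i(v_i, e)` is at least `c / H^κ` in absolute value. -/
def JointMeasure {ν : Type} (v : ν → ℝ) : Prop :=
  ∀ D : ℕ, ∃ κ : ℕ, ∃ c : ℝ, 0 < c ∧ ∀ P : ν → MvPolynomial (Fin 2) ℤ, (∀ i, P i ≠ 0) →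
    (∀ i, (P i).totalDegree ≤ D) → ∀ H : ℝ, 1 ≤ H → (∀ i s, |(((P i).coeff s : ℤ) : ℝ)| ≤ H) →
      ∃ i, c / H ^ κ ≤ |MvPolynomial.aeval ![v i, Real.exp 1] (P i)|

theorem rest_eq (k : ℕ) (x : ℝ) :
    rest k x = Pool.Agent.R352.Q.cube k (Ioi 0) \ Pool.Agent.R352.Q.cube k (Ioo 0 x) := by
  ext t
  simp only [rest, Pool.Agent.R352.Q.cube, mem_sdiff, mem_univ_pi, mem_Ioi, mem_Ioo]
  constructor
  · rintro ⟨h1, j, h2⟩
    exact ⟨h1, fun h => absurd (h j).2 (not_lt.2 h2)⟩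
  · rintro ⟨h1, h2⟩
    push Not at h2
    obtain ⟨j, hj⟩ := h2
    exact ⟨h1, j, hj (h1 j)⟩

theorem tailIntegral_eq {k : ℕ} (hk : 2 ≤ k) {x : ℚ} (hx : 0 < x) :
    tailIntegral k x = (Pool.Agent.R352.Q.Rk k x : ℂ) := by
  have hx' : (0 : ℝ) < x := by exact_mod_cast hx
  have h : tailIntegral k x = Pool.Agent.R352.Q.NI k
      (Pool.Agent.R352.Q.cube k (Ioi 0) \ Pool.Agent.R352.Q.cube k (Ioo 0 x)) := by
    rw [tailIntegral, rest_eq]
    rfl
  rw [h, Pool.Agent.R352.Q.NI_diff, Pool.Agent.R352.Q.NI_full hk, Pool.Agent.R352.Q.NI_box hk hx',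
    Pool.Agent.R352.Q.Rk]
  push_cast
  rfl

theorem tailIntegral_zero {k : ℕ} (hk : 2 ≤ k) : tailIntegral k 0 = (zeta k : ℂ) := by
  have h1 : rest k ((0 : ℚ) : ℝ) = Pool.Agent.R352.Q.cube k (Ioi 0) := by
    ext t
    simp only [rest, Pool.Agent.R352.Q.cube, mem_univ_pi, mem_Ioi, Rat.cast_zero]
    constructor
    · rintro ⟨h1, -⟩
      exact h1
    · intro h
      exact ⟨h, ⟨0, by omega⟩, (h _).le⟩
  have h2 : tailIntegral k 0 = Pool.Agent.R352.Q.NI k (Pool.Agent.R352.Q.cube k (Ioi 0)) := by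
    rw [tailIntegral, h1]
    rfl
  rw [h2, Pool.Agent.R352.Q.NI_full hk]
  rfl

theorem R_eq {k : ℕ} (hk : 2 ≤ k) {x : ℚ} (hx : 0 < x) : R k x = Pool.Agent.R352.Q.Rk k x := by
  rw [R, tailIntegral_eq hk hx, Complex.ofReal_re]

theorem jointMeasure_of {ν : Type} {v : ν → ℝ} (h : Pool.Agent.N778.EM.Joint (fun _ : Fin 1 => Real.exp 1) v) :
    JointMeasure v := by
  intro D
  obtain ⟨κ, c, hc, h1⟩ := h D
  refine ⟨κ, c, hc, fun P hP0 hPD H hH hPH => ?_⟩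
  obtain ⟨i, hi⟩ := h1 P hP0 hPD H hH hPH
  refine ⟨i, ?_⟩
  have e1 : (Fin.cons (v i) (fun _ : Fin 1 => Real.exp 1) : Fin 2 → ℝ) = ![v i, Real.exp 1] := by
    funext j
    fin_cases j <;> rfl
  rw [e1] at hi
  have hHk : 0 < H ^ κ := by positivity
  rw [div_le_iff₀ hHk, mul_comm]
  exact hi

theorem main {r : ℕ} (y : Fin r → ℝ) (K : Set ℕ) (hK : ∀ k ∈ K, 2 ≤ k ∧ AlgebraicOverEAnd y (zeta k))
    (S : Finset (Fin r ⊕ (ℕ × ℚ))) (hS : ∀ p : ℕ × ℚ, .inr p ∈ S → p.1 ∈ K ∧ 0 < p.2) (hcard : r + 1 ≤ S.card) :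
    JointMeasure fun i : S => Sum.elim y (fun p => R p.1 p.2) (i : Fin r ⊕ (ℕ × ℚ)) := by
  refine jointMeasure_of ?_
  have h := Pool.Agent.N778.EM.jointR y S (fun p hp => ?_) (by omega)
  · refine h.mono id fun i => ?_
    obtain ⟨i, hi⟩ := i
    rcases i with i | p
    · rfl
    · exact R_eq (hK _ (hS p hi).1).1 (hS p hi).2
  · have h1 := hS p hp
    exact ⟨(hK _ h1.1).1, h1.2, Pool.Agent.R352.E.mem_clF.2 (hK _ h1.1).2⟩

theorem constants_mem {c k : ℕ} (hk : 2 ≤ k) (h : Even k ∨ k ≤ 2 * c + 1) {T : Set ℝ}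
    (hT : ∀ i, constants c i ∈ Pool.Agent.R352.E.clF T) : zeta k ∈ Pool.Agent.R352.E.clF T := by
  have hpi : Real.pi ∈ Pool.Agent.R352.E.clF T := hT 0
  rcases Nat.even_or_odd' k with ⟨j, rfl | rfl⟩
  · exact Pool.Agent.R352.E.zt_even hpi j (by omega)
  · have h1 : 2 * j + 1 ≤ 2 * c + 1 := by
      rcases h with h | h
      · exact absurd h (by simp)
      · exact h
    have h2 := hT (Fin.succ ⟨j - 1, by omega⟩)
    simp only [constants, Fin.cons_succ] at h2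
    have h3 : 2 * (j - 1) + 3 = 2 * j + 1 := by omega
    rw [h3] at h2
    exact h2

/-- the case of a small transcendence degree -/
theorem small {c t : ℕ}
    (h : Pool.Agent.R352.E.Mt.eRk ({Real.exp 1} ∪ range (constants c)) ≤ ((t + 1 : ℕ) : ℕ∞))
    (S : Finset (ℕ × ℚ)) (hS : ∀ p ∈ S, 2 ≤ p.1 ∧ (Even p.1 ∨ p.1 ≤ 2 * c + 1) ∧ 0 < p.2) (hcard : t + 1 ≤ S.card) :
    JointMeasure fun p : S => R p.1.1 p.1.2 := by
  classical
  obtain ⟨y, hy⟩ := Pool.Agent.N778.EM.exists_y (constants c) h Pool.Agent.N778.EM.exp_transc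
  have h1 := main y {k | 2 ≤ k ∧ (Even k ∨ k ≤ 2 * c + 1)} (fun k hk => ⟨hk.1, Pool.Agent.R352.E.mem_clF.1
    (constants_mem hk.1 hk.2 hy)⟩) (S.map ⟨Sum.inr, Sum.inr_injective⟩) (fun p hp => by
      obtain ⟨q, hq, hqp⟩ := Finset.mem_map.1 hp
      have h2 : q = p := Sum.inr_injective hqp
      subst h2
      exact ⟨⟨(hS q hq).1, (hS q hq).2.1⟩, (hS q hq).2.2⟩) (by rw [Finset.card_map]; exact hcard)
  intro D
  obtain ⟨κ, c', hc', h2⟩ := h1 D
  refine ⟨κ, c', hc', fun P hP0 hPD H hH hPH => ?_⟩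
  have hmem : ∀ i : ↥(S.map ⟨(Sum.inr : ℕ × ℚ → Fin t ⊕ (ℕ × ℚ)), Sum.inr_injective⟩), ∃ p : S,
      Sum.inr (p : ℕ × ℚ) = (i : Fin t ⊕ (ℕ × ℚ)) := by
    intro i
    obtain ⟨q, hq, hqp⟩ := Finset.mem_map.1 i.2
    exact ⟨⟨q, hq⟩, hqp⟩
  choose g hg using hmem
  obtain ⟨i, hi⟩ := h2 (fun i => P (g i)) (fun i => hP0 _) (fun i => hPD _) H hH (fun i => hPH _)
  refine ⟨g i, ?_⟩
  have e : Sum.elim y (fun p : ℕ × ℚ => R p.1 p.2) (i : Fin t ⊕ (ℕ × ℚ)) = R (g i).1.1 (g i).1.2 := by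
    rw [← hg i]
    rfl
  simp only [e] at hi
  exact hi

theorem result :
    -- (1)
    (∀ k : ℕ, 2 ≤ k → (∀ x : ℚ, 0 ≤ x → tailIntegral k x = (R k x : ℂ)) ∧ R k 0 = zeta k) ∧
    -- (2)
    (∀ (r : ℕ) (y : Fin r → ℝ) (K : Set ℕ), (∀ k ∈ K, 2 ≤ k ∧ AlgebraicOverEAnd y (zeta k)) →
      ∀ S : Finset (Fin r ⊕ (ℕ × ℚ)), (∀ p : ℕ × ℚ, .inr p ∈ S → p.1 ∈ K ∧ 0 < p.2) → r + 1 ≤ S.card →
        JointMeasure fun i : S => Sum.elim y (fun p => R p.1 p.2) (i : Fin r ⊕ (ℕ × ℚ))) ∧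
    -- (3)
    (∀ (c : ℕ) (S : Finset (Fin (c + 1) ⊕ (ℕ × ℚ))),
      (∀ p : ℕ × ℚ, .inr p ∈ S → 2 ≤ p.1 ∧ (Even p.1 ∨ p.1 ≤ 2 * c + 1) ∧ 0 < p.2) → c + 2 ≤ S.card →
        JointMeasure fun i : S => Sum.elim (constants c) (fun p => R p.1 p.2) (i : Fin (c + 1) ⊕ (ℕ × ℚ))) ∧
    -- (4)
    (∀ c t : ℕ, Algebra.trdeg ℚ (IntermediateField.adjoin ℚ ({Real.exp 1} ∪ range (constants c))) ≤
        ((t + 1 : ℕ) : Cardinal) →
      ∀ S : Finset (ℕ × ℚ), (∀ p ∈ S, 2 ≤ p.1 ∧ (Even p.1 ∨ p.1 ≤ 2 * c + 1) ∧ 0 < p.2) → t + 1 ≤ S.card →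
        JointMeasure fun p : S => R p.1.1 p.1.2) ∧
    -- (5)
    (∀ c : ℕ, AlgebraicIndependent ℚ (constants c) ∨
      ∀ S : Finset (ℕ × ℚ), (∀ p ∈ S, 2 ≤ p.1 ∧ (Even p.1 ∨ p.1 ≤ 2 * c + 1) ∧ 0 < p.2) → c + 1 ≤ S.card →
        JointMeasure fun p : S => R p.1.1 p.1.2) := by
  have h0 : ∀ k : ℕ, 2 ≤ k → R k 0 = zeta k := by
    intro k hk
    rw [R, tailIntegral_zero hk, Complex.ofReal_re]
  refine ⟨fun k hk => ⟨fun x hx => ?_, h0 k hk⟩, fun r y K hK S hS hcard => main y K hK S hS hcard,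
    fun c S hS hcard => ?_, fun c t h S hS hcard => ?_, fun c => ?_⟩
  · rcases hx.eq_or_lt with hx0 | hx0
    · rw [← hx0, h0 k hk, tailIntegral_zero hk]
    · rw [R_eq hk hx0, tailIntegral_eq hk hx0]
  · refine main (constants c) {k | 2 ≤ k ∧ (Even k ∨ k ≤ 2 * c + 1)} (fun k hk => ⟨hk.1,
      Pool.Agent.R352.E.mem_clF.1 (constants_mem hk.1 hk.2 fun i =>
        Pool.Agent.R352.E.subset_clF _ (Or.inr ⟨i, rfl⟩))⟩) S (fun p hp => ?_) hcard
    have := hS p hp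
    exact ⟨⟨this.1, this.2.1⟩, this.2.2⟩
  · exact small (Pool.Agent.N778.EM.eRk_le_trdeg h ((finite_singleton _).union (finite_range _))) S hS hcard
  · by_cases h : AlgebraicIndependent ℚ (constants c)
    · exact Or.inl h
    · exact Or.inr fun S hS hcard =>
        small (Pool.Agent.N778.EM.eRk_insert_le (Pool.Agent.N778.EM.eRk_le_of_dep h)) S hS hcard

end Pool.Agent.Results.MP_a89d6d_nt.IncompleteZetaMeasure
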