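import Pool.Agent.N493.Sep57

set_option autoImplicit false

/-!
# Near relations between `1`, `ζ(3)` and any real number at all scales of an interval

Let `ξ` be a real number and `w` with `(w - 1) (w - 4.68) > 3.68`, for instance `w = 5.5`. If at
every scale `X ∈ [Y, Z]` there is a nonzero integer vector `(a, b, c)` with `|b|, |c| ≤ X` and
`|a + b ζ(3) + c ξ| ≤ X ^ (-w)`, then a single nonzero vector of height `≤ Y ^ κ` has precision
`Z ^ (-w)`. The constants do not depend on `ξ`. For `ξ = ζ(5)` and `ξ = ζ(7)`, and also for two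
powers of `π`, this cannot happen for both numbers on the same long interval of scales.
-/

namespace Pool.Agent.Results.MP_a89d6d_nt.NearRelationsAllScales

open Pool.Agent.N493 Pool.Agent.N493.NR

/-- `ζ(s) = ∑_{n ≥ 0} 1 / (n + 1) ^ s` -/
noncomputable def zeta (s : ℕ) : ℝ := ∑' n : ℕ, 1 / ((n : ℝ) + 1) ^ s

/-- `a + b ζ(3) + c ξ` for `v = (a, b, c)` -/
noncomputable def value (ξ : ℝ) (v : ℤ × ℤ × ℤ) : ℝ := v.1 + v.2.1 * zeta 3 + v.2.2 * ξ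

/-- the height `max (|b|, |c|)` of `v = (a, b, c)` -/
def height (v : ℤ × ℤ × ℤ) : ℕ := max v.2.1.natAbs v.2.2.natAbs

/-- there is a nonzero `v = (a, b, c)` with `|b|, |c| ≤ H` and `|a + b ζ(3) + c ξ| ≤ δ` -/
def Near (ξ H δ : ℝ) : Prop := ∃ v : ℤ × ℤ × ℤ, v ≠ 0 ∧ (height v : ℝ) ≤ H ∧ |value ξ v| ≤ δ

theorem dependent_iff (ξ : ℝ) : (¬ LinearIndependent ℚ ![(1 : ℝ), zeta 3, ξ]) ↔
    ∃ v : ℤ × ℤ × ℤ, v ≠ 0 ∧ value ξ v = 0 := by
  rw [Fintype.not_linearIndependent_iff]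
  constructor
  · rintro ⟨g, hg, i, hi⟩
    rw [Fin.sum_univ_three] at hg
    simp only [Matrix.cons_val_zero, Matrix.cons_val_one, Matrix.cons_val, Rat.smul_def] at hg
    have e : ∀ k : Fin 3, ((g k).den : ℝ) * (g k : ℝ) = (g k).num := by
      intro k
      have := Rat.den_mul_eq_num (g k)
      exact_mod_cast congrArg (fun z : ℚ => (z : ℝ)) this
    have d : ∀ k : Fin 3, ((g k).den : ℤ) ≠ 0 := fun k => by exact_mod_cast (g k).den_nz
    refine ⟨((g 0).num * (g 1).den * (g 2).den, (g 1).num * (g 0).den * (g 2).den,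
      (g 2).num * (g 0).den * (g 1).den), ?_, ?_⟩
    · intro h0
      rw [Prod.ext_iff, Prod.ext_iff] at h0
      obtain ⟨h1, h2, h3⟩ := h0
      simp only [Prod.fst_zero, Prod.snd_zero] at h1 h2 h3
      have hn : (g i).num ≠ 0 := Rat.num_ne_zero.2 hi
      fin_cases i
      · exact hn (by simpa [d 1, d 2] using h1)
      · exact hn (by simpa [d 0, d 2] using h2)
      · exact hn (by simpa [d 0, d 1] using h3)
    · unfold value
      push_cast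
      rw [← e 0, ← e 1, ← e 2]
      linear_combination ((g 0).den : ℝ) * ((g 1).den : ℝ) * ((g 2).den : ℝ) * hg
  · rintro ⟨v, hv0, hv⟩
    refine ⟨![(v.1 : ℚ), (v.2.1 : ℚ), (v.2.2 : ℚ)], ?_, ?_⟩
    · rw [Fin.sum_univ_three]
      simp only [Matrix.cons_val_zero, Matrix.cons_val_one, Matrix.cons_val, Rat.smul_def]
      push_cast
      unfold value at hv
      linarith
    · by_contra hcon
      push Not at hcon
      apply hv0
      have h0 := hcon 0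
      have h1 := hcon 1
      have h2 := hcon 2
      simp only [Matrix.cons_val_zero, Matrix.cons_val_one, Matrix.cons_val] at h0 h1 h2
      refine Prod.ext ?_ (Prod.ext ?_ ?_)
      · exact_mod_cast h0
      · exact_mod_cast h1
      · exact_mod_cast h2

/-- Let `(w - 1) (w - 4.68) > 3.68` (for instance `w = 5.5`), `κ ≥ 1` and `κ (w - 4.68) > 3.68`.
(1) For large `Y`, all real `ξ` and `Z ≥ Y`: near relations of precision `X ^ (-w)` at all scales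
`X ∈ [Y, Z]` give one near relation of height `≤ Y ^ κ` and precision `Z ^ (-w)`; near relations at
all scales `X ≥ Y` give an exact relation of height `≤ Y ^ κ`. (2) `1, ζ(3), ξ` are linearly
dependent over `ℚ` if and only if there are near relations of precision `X ^ (-5.5)` at all large
scales. (3) If `M ≥ 1` and `M w > 2141 κ`, then every interval `[Y, Y ^ M]`, `Y` large, contains a
scale with no near relation for `ξ = ζ(5)` or none for `ξ = ζ(7)`. (4) The same for two different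
powers of `π`, with some `M`. -/
theorem result :
    (∀ w κ : ℝ, 4.68 < w → 3.68 < (w - 1) * (w - 4.68) → 1 ≤ κ → 3.68 < κ * (w - 4.68) →
      ∃ Y₀ : ℝ, 1 ≤ Y₀ ∧ ∀ ξ Y : ℝ, Y₀ ≤ Y →
        (∀ Z : ℝ, Y ≤ Z → (∀ X : ℝ, Y ≤ X → X ≤ Z → Near ξ X (X ^ (-w))) →
          Near ξ (Y ^ κ) (Z ^ (-w))) ∧
        ((∀ X : ℝ, Y ≤ X → Near ξ X (X ^ (-w))) → Near ξ (Y ^ κ) 0)) ∧
    (∀ ξ : ℝ, (¬ LinearIndependent ℚ ![(1 : ℝ), zeta 3, ξ]) ↔
      ∃ Y : ℝ, ∀ X : ℝ, Y ≤ X → Near ξ X (X ^ (-5.5 : ℝ))) ∧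
    (∀ w κ M : ℝ, 4.68 < w → 3.68 < (w - 1) * (w - 4.68) → 1 ≤ κ → 3.68 < κ * (w - 4.68) →
      1 ≤ M → 2141 * κ < M * w → ∃ Y₁ : ℝ, ∀ Y : ℝ, Y₁ ≤ Y → ∃ X : ℝ, Y ≤ X ∧ X ≤ Y ^ M ∧
        (¬ Near (zeta 5) X (X ^ (-w)) ∨ ¬ Near (zeta 7) X (X ^ (-w)))) ∧
    (∀ w : ℝ, 4.68 < w → 3.68 < (w - 1) * (w - 4.68) → ∀ j k : ℕ, 1 ≤ j → 1 ≤ k → j ≠ k →
      ∃ M Y₁ : ℝ, ∀ Y : ℝ, Y₁ ≤ Y → ∃ X : ℝ, Y ≤ X ∧ X ≤ Y ^ M ∧
        (¬ Near (Real.pi ^ j) X (X ^ (-w)) ∨ ¬ Near (Real.pi ^ k) X (X ^ (-w)))) := by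
  obtain ⟨c, hc, hNu⟩ := nu_zeta3
  have h368 : (0 : ℝ) < 3.68 := by norm_num
  have hfix : ∀ w κ : ℝ, 4.68 < w → 3.68 < (w - 1) * (w - 4.68) → 1 ≤ κ → 3.68 < κ * (w - 4.68) →
      1 + 3.68 < w ∧ 3.68 < (w - 1) * (w - 1 - 3.68) ∧ 3.68 < κ * (w - 1 - 3.68) := by
    intro w κ h1 h2 _ h3
    have e : w - 1 - 3.68 = w - 4.68 := by ring
    rw [e]
    exact ⟨by linarith, h2, h3⟩
  refine ⟨?_, ?_, ?_, ?_⟩
  · intro w κ h1 h2 h3 h4
    obtain ⟨g1, g2, g3⟩ := hfix w κ h1 h2 h3 h4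
    obtain ⟨Y1, hY1, k1⟩ := NRNu.local_nu (zeta 3) 3.68 c h368 hc hNu w κ g1 g2 h3 g3
    obtain ⟨Y2, hY2, k2⟩ := NRNu.exact_nu (zeta 3) 3.68 c h368 hc hNu w κ g1 g2 h3 g3
    refine ⟨max Y1 Y2, hY1.trans (le_max_left _ _), fun ξ Y hY => ⟨fun Z hZ hU => ?_, fun hU => ?_⟩⟩
    · exact k1 ξ Y Z ((le_max_left _ _).trans hY) hZ hU
    · exact k2 ξ Y ((le_max_right _ _).trans hY) hU
  · intro ξ
    rw [dependent_iff]
    constructor
    · rintro ⟨v, hv0, hv⟩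
      refine ⟨height v, fun X hX => ⟨v, hv0, hX, ?_⟩⟩
      rw [hv, abs_zero]
      have : (0 : ℝ) ≤ X := (Nat.cast_nonneg _).trans hX
      positivity
    · rintro ⟨Y, hU⟩
      obtain ⟨Y0, hY0, h⟩ := NRNu.exact_nu (zeta 3) 3.68 c h368 hc hNu 5.5 5 (by norm_num)
        (by norm_num) (by norm_num) (by norm_num)
      obtain ⟨v, hv0, -, hv⟩ := h ξ (max Y0 Y) (le_max_left _ _)
        fun X hX => hU X ((le_max_right _ _).trans hX)
      exact ⟨v, hv0, abs_eq_zero.1 (le_antisymm hv (abs_nonneg _))⟩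
  · intro w κ M h1 h2 h3 h4 hM1 hM
    obtain ⟨g1, g2, g3⟩ := hfix w κ h1 h2 h3 h4
    obtain ⟨c', hc', hS⟩ := sep_57
    exact NRNu.gap (zeta 3) 3.68 c h368 hc hNu w κ g1 g2 h3 g3 (zeta 5) (zeta 7) 2141 c' hc' hS M
      hM1 hM
  · intro w h1 h2 j k hj hk hjk
    have hw0 : 0 < w - 4.68 := by linarith
    obtain ⟨κ, hκ⟩ : ∃ κ : ℝ, κ = 3.68 / (w - 4.68) + 1 := ⟨_, rfl⟩
    have hκ1 : 1 ≤ κ := by
      have : 0 < 3.68 / (w - 4.68) := by positivity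
      linarith
    have hκ2 : 3.68 < κ * (w - 4.68) := by
      rw [hκ, add_mul, div_mul_cancel₀ _ hw0.ne']
      linarith
    obtain ⟨g1, g2, g3⟩ := hfix w κ h1 h2 hκ1 hκ2
    obtain ⟨m, c', hm, hc', hS⟩ := NRNu.sep_pi (zeta 3) 3.68 c h368 hc hNu
      Pool.Agent.TH456.TM.measT_pi j k hj hk hjk
    obtain ⟨M, hM⟩ : ∃ M : ℝ, M = m * κ + 1 := ⟨_, rfl⟩
    have hmκ : 0 < m * κ := by positivity
    refine ⟨M, ?_⟩
    exact NRNu.gap (zeta 3) 3.68 c h368 hc hNu w κ g1 g2 hκ1 g3 (Real.pi ^ j) (Real.pi ^ k) m c' hc'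
      hS M (by linarith) (by rw [hM]; nlinarith)

end Pool.Agent.Results.MP_a89d6d_nt.NearRelationsAllScales
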