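import Pool.Agent.N743.Crit
import Pool.Agent.R473.JC.Pairs
import Pool.Agent.TH456.TM.AlgDep

/-!
# Near algebraic relations between `π` and another number on intervals of scales

Let `x` be `π`, or any transcendental complex number which is algebraic over `ℚ(π)`, `ℚ(e)` or
`ℚ(log q)`, and let `t` be an arbitrary complex number, for instance an odd zeta value. A near
relation between `x` and `t` at the scale `X` is a nonzero polynomial `P` with integer coefficients,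
of degree at most `D` in each of the two variables, with coefficients at most `X ^ θ` in absolute
value, and `|P(x, t)| ≤ 1 / X`. For every `D` and `M > 1` and all sufficiently small `θ > 0`:

* At every large scale there is at most one irreducible near relation (up to the sign).
* Interval principle: if there is an irreducible near relation at every scale `X` between `Y` and
  `Z`, then one and the same polynomial is a near relation at all these scales; so it has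
  coefficients at most `Y ^ θ` and `|F(x, t)| ≤ 1 / Z`. If at every scale between `Y` and `Z` there is
  any near relation, then there is an irreducible polynomial with coefficients at most `Y ^ (2 θ)` and
  `|F(x, t)| ≤ Z ^ (-1 / (2 D + 1))`.
* An irreducible near relation with `|F(x, t)| = 1 / Z`, `Z < ∞`, is followed by the void window
  `Z < Y ≤ Z ^ M` of scales without irreducible near relations.
* `x` and `t` satisfy an algebraic relation of degree at most `D` in each variable if and only if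
  there is a near relation at every large scale; otherwise there are arbitrarily large `Z` such that
  there is no near relation at all scales `Y` with `Z < Y ≤ Z ^ M`.

In the first three statements `X`, `Y` and `Z` are at least a constant that is the same for all `t` in
a given disc.
-/

set_option autoImplicit false

namespace Pool.Agent.Results.MP_a89d6d_nt.NearRelationsWithPi

open Polynomial Pool.Agent.N743

/-- `x` is a transcendental complex number which is algebraic over the ring generated by `e`, or by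
`π`, or by the logarithm of a positive rational number different from `1`. -/
def Base (x : ℂ) : Prop :=
  Transcendental ℤ x ∧ ∃ ξ : ℝ,
    (ξ = Real.exp 1 ∨ ξ = Real.pi ∨ ∃ q : ℚ, 0 < q ∧ q ≠ 1 ∧ ξ = Real.log q) ∧
    IsAlgebraic (Algebra.adjoin ℤ ({(ξ : ℂ)} : Set ℂ)) x

/-- `P(x, t) = 0` for a nonzero polynomial `P` with integer coefficients, of degree at most `D` in
each variable -/
def Related (D : ℕ) (x t : ℂ) : Prop :=
  ∃ P : ℤ[X][X], P ≠ 0 ∧ P.natDegree ≤ D ∧ (∀ j, (P.coeff j).natDegree ≤ D) ∧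
    aevalAeval x t P = 0

/-- The numbers `x` and `t` are algebraically independent: `P(x, t) ≠ 0` for every nonzero polynomial
`P` with integer coefficients. -/
def Independent (x t : ℂ) : Prop := ∀ P : ℤ[X][X], P ≠ 0 → aevalAeval x t P ≠ 0

/-- the statements on near relations at the scales beyond `K` -/
def Local (D : ℕ) (θ M : ℝ) (x t : ℂ) (K : ℝ) : Prop :=
  (∀ X ≥ K, ∀ F G, IrrNear D θ x t X F → IrrNear D θ x t X G → F = G) ∧
  (∀ X ≥ K, ∀ F, IrrNear D θ x t X F → aevalAeval x t F ≠ 0 →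
    X ≤ ‖aevalAeval x t F‖⁻¹ ∧ ∀ Y, ‖aevalAeval x t F‖⁻¹ < Y →
      Y ≤ (‖aevalAeval x t F‖⁻¹) ^ M → ∀ G, ¬ IrrNear D θ x t Y G) ∧
  (∀ Y Z, K ≤ Y → Y ≤ Z → (∀ X, Y ≤ X → X ≤ Z → ∃ F, IrrNear D θ x t X F) →
    ∃ F, ∀ X, Y ≤ X → X ≤ Z → IrrNear D θ x t X F) ∧
  (∀ Y Z, K ≤ Y → Y ≤ Z → (∀ X, Y ≤ X → X ≤ Z → NearRel D θ x t X) →
    ∃ F, IrrNormal F ∧ Small D (Y ^ (2 * θ)) F ∧
      ‖aevalAeval x t F‖ ≤ Z ^ (-(1 / (2 * (D : ℝ) + 1))))

/-- (1) The local statements, with constants that are uniform in `t`. (2) The global statements: near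
relations at all large scales come from a relation; otherwise there are arbitrarily large void
windows. (3) Characterisations of algebraic independence. (4) The pairs `(π, ζ(2 k + 1))`. -/
theorem result :
    (∀ x : ℂ, Base x → ∀ D : ℕ, 1 ≤ D → ∀ M : ℝ, 1 < M → ∃ θ₀ : ℝ, 0 < θ₀ ∧ ∀ θ : ℝ, 0 < θ → θ ≤ θ₀ →
      (∀ T : ℝ, ∃ K : ℝ, 1 < K ∧ ∀ t : ℂ, ‖t‖ ≤ T → Local D θ M x t K) ∧
      (∀ t : ℂ, (Related D x t ↔ ∃ K : ℝ, ∀ X ≥ K, NearRel D θ x t X) ∧
        (¬ Related D x t → ∀ K : ℝ, ∃ Z ≥ K, ∀ Y, Z < Y → Y ≤ Z ^ M → ¬ NearRel D θ x t Y))) ∧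
    (∀ x : ℂ, Base x → ∀ t : ℂ, List.TFAE [
      Independent x t,
      ∀ D : ℕ, 1 ≤ D → ∀ M : ℝ, 1 < M → ∃ θ : ℝ, 0 < θ ∧
        ∀ K : ℝ, ∃ Z ≥ K, ∀ Y, Z < Y → Y ≤ Z ^ M → ¬ NearRel D θ x t Y,
      ∀ D : ℕ, 1 ≤ D → ∃ θ : ℝ, 0 < θ ∧ ∀ K : ℝ, ∃ X ≥ K, ¬ NearRel D θ x t X]) ∧
    (∀ k : ℕ, 1 ≤ k → (Independent (Real.pi : ℂ) (riemannZeta (2 * k + 1)) ↔
      ∀ D : ℕ, 1 ≤ D → ∃ θ : ℝ, 0 < θ ∧ ∀ K : ℝ, ∃ X ≥ K,
        ¬ NearRel D θ (Real.pi : ℂ) (riemannZeta (2 * k + 1)) X)) := by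
  have hmeas : ∀ x : ℂ, Base x → Pool.Agent.TH456.TM.MeasT x := by
    rintro x ⟨htr, ξ, hξ, halg⟩
    exact Pool.Agent.TH456.TM.measT_of_isAlgebraic (Pool.Agent.R473.JC.measT_three ξ hξ) x halg htr
  have h1 : ∀ x : ℂ, Base x → ∀ D : ℕ, 1 ≤ D → ∀ M : ℝ, 1 < M → ∃ θ₀ : ℝ, 0 < θ₀ ∧ ∀ θ : ℝ, 0 < θ →
      θ ≤ θ₀ → (∀ T : ℝ, ∃ K : ℝ, 1 < K ∧ ∀ t : ℂ, ‖t‖ ≤ T → Local D θ M x t K) ∧
      (∀ t : ℂ, (Related D x t ↔ ∃ K : ℝ, ∀ X ≥ K, NearRel D θ x t X) ∧
        (¬ Related D x t → ∀ K : ℝ, ∃ Z ≥ K, ∀ Y, Z < Y → Y ≤ Z ^ M → ¬ NearRel D θ x t Y)) :=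
    fun x hx D hD M hM => crit x (hmeas x hx) D hD M hM
  have h2 : ∀ x : ℂ, Base x → ∀ t : ℂ, List.TFAE [
      Independent x t,
      ∀ D : ℕ, 1 ≤ D → ∀ M : ℝ, 1 < M → ∃ θ : ℝ, 0 < θ ∧
        ∀ K : ℝ, ∃ Z ≥ K, ∀ Y, Z < Y → Y ≤ Z ^ M → ¬ NearRel D θ x t Y,
      ∀ D : ℕ, 1 ≤ D → ∃ θ : ℝ, 0 < θ ∧ ∀ K : ℝ, ∃ X ≥ K, ¬ NearRel D θ x t X] := by
    intro x hx t
    tfae_have 1 → 2 := by
      intro hind D hD M hM
      obtain ⟨θ₀, hθ₀, h3⟩ := h1 x hx D hD M hM
      refine ⟨θ₀, hθ₀, ((h3 θ₀ hθ₀ le_rfl).2 t).2 ?_⟩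
      rintro ⟨P, hP, _, _, h0⟩
      exact hind P hP h0
    tfae_have 2 → 3 := by
      intro h D hD
      obtain ⟨θ, hθ, h3⟩ := h D hD 2 (by norm_num)
      refine ⟨θ, hθ, fun K => ?_⟩
      obtain ⟨Z, hZ, h4⟩ := h3 (max K 2)
      have hZ2 : 2 ≤ Z := (le_max_right _ _).trans hZ
      have h5 : Z < Z ^ (2 : ℝ) := by
        conv_lhs => rw [← Real.rpow_one Z]
        exact Real.rpow_lt_rpow_of_exponent_lt (by linarith) (by norm_num)
      exact ⟨Z ^ (2 : ℝ), (((le_max_left _ _).trans hZ).trans h5.le), h4 _ h5 le_rfl⟩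
    tfae_have 3 → 1 := by
      intro h P hP h0
      obtain ⟨D, hD⟩ : ∃ D, D = P.natDegree + (Bivariate.swap P).natDegree + 1 := ⟨_, rfl⟩
      obtain ⟨θ, hθ, h3⟩ := h D (by omega)
      obtain ⟨K, hK⟩ := near_of_rel D θ x t hθ
        ⟨P, hP, by omega, (swap_natDegree_le P D).1 (by omega), h0⟩
      obtain ⟨X, hX, h4⟩ := h3 K
      exact h4 (hK X hX)
    tfae_finish
  refine ⟨h1, h2, fun k _ => ?_⟩
  have hpi : Base (Real.pi : ℂ) := by
    refine ⟨Pool.Agent.TH456.TM.transcendental_of_measT Pool.Agent.TH456.TM.measT_pi, Real.pi,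
      Or.inr (Or.inl rfl), ?_⟩
    exact isAlgebraic_algebraMap
      (⟨(Real.pi : ℂ), Algebra.subset_adjoin rfl⟩ : Algebra.adjoin ℤ ({(Real.pi : ℂ)} : Set ℂ))
  exact (h2 _ hpi _).out 0 2

end Pool.Agent.Results.MP_a89d6d_nt.NearRelationsWithPi
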