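import Pool.Agent.R347.LF.Ex
import Pool.Agent.R347.LF.Main
import Pool.Agent.TH456.TM.Inst
import Pool.Agent.N449.LZ.Trans

/-!
# `π` and odd zeta values over fields of numbers with good approximations in a number field

Let `q_0, q_1, …` be an unbounded sequence of integers `≥ 2` and let `F` be a real number field. A real number `x` is
*`F`-approximable* if for some `h` and every `κ` there is, for all large `k`, an element `a` of `F` with
`|x - a| ≤ q_k ^ (-κ)` which is a zero of a nonzero integer polynomial with coefficients of absolute value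
`≤ q_k ^ h`. These numbers form a field which contains `F`; for `q_k = 2 ^ ((k + 2)!)` its transcendence degree is
the cardinality of the continuum; every Liouville number is `F`-approximable for all `F` and a suitable sequence. For
`F ≠ ℚ` there are many `F`-approximable numbers which are not generated by Liouville numbers in any obvious way, as
`∑ (√2 - 1) ^ (k!)` for `F = ℚ(√2)`.

**Theorem.** Let `L` be any field of `F`-approximable numbers, `[F : ℚ] ≤ d`. Then
* `π` is transcendental over `L`;
* if `2^(132 d (v + S)) (b + 1)² (K S)³ log (K S + 1) ≤ s²`, then for every `L`-vector space `V` of real numbers of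
  dimension at most `v` there are `K` pairwise disjoint sets of `S` odd integers in the window `(b, s]` such that the
  `ζ(j)`, `j` in any one of the sets, are linearly independent over `L` modulo `V`;
* under the same condition there are `K` such sets `J` for which the `v + S` numbers
  `1, π, …, π ^ (v - 1), ζ(j) (j ∈ J)` are linearly independent over `L`.

The first part is proved in `Pool/Agent/N449/LZ/Trans.lean`: the coefficients of a relation are replaced by
approximations in `F`; the matrix of the multiplication by the resulting polynomial in `π` is a matrix of integer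
polynomials in `π`, with a small eigenvalue; its determinant is a nonzero integer polynomial in `π`, and is small,
against the transcendence measure of `π`.
-/

set_option autoImplicit false

namespace Pool.Agent.Results.MP_a89d6d_nt.NumberFieldLiouville

open Polynomial Module

/-- For some `h` and every `κ` there is, for all large `k`, an element `a` of `F` with `|x - a| ≤ (q k) ^ (-κ)` which
is a zero of a nonzero integer polynomial with coefficients of absolute value at most `(q k) ^ h`. -/
def Approximable (q : ℕ → ℕ) (F : IntermediateField ℚ ℝ) (x : ℝ) : Prop :=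
  ∃ h : ℕ, ∀ κ : ℕ, ∃ k₀ : ℕ, ∀ k ≥ k₀, ∃ a ∈ F,
    (∃ P : ℤ[X], P ≠ 0 ∧ (∀ n, |P.coeff n| ≤ ((q k ^ h : ℕ) : ℤ)) ∧ aeval a P = 0) ∧
      |x - a| ≤ (((q k : ℕ) : ℝ) ^ κ)⁻¹

/-- The value `ζ(j)`, for `j ≥ 2`. -/
noncomputable def zetaValue (j : ℕ) : ℝ := ∑' n : ℕ, 1 / ((n : ℝ) + 1) ^ j

/-- The sequence `2 ^ ((k + 2)!)`. -/
def q₀ (k : ℕ) : ℕ := 2 ^ (k + 2).factorial

theorem meas_pi : Pool.Agent.N449.LZ.Meas Real.pi := by
  intro D
  obtain ⟨κ, c, -, hc, h⟩ := Pool.Agent.TH456.TM.measT_pi D
  obtain ⟨N, hN⟩ := exists_nat_ge κ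
  refine ⟨N, c, hc, fun P hP H hH hPH => ?_⟩
  have hH' : (1 : ℝ) ≤ (H : ℝ) := by exact_mod_cast hH
  have h1 := h P hP hPH.1 H hH' (fun j => by
    have := hPH.2 j
    rw [← Int.cast_abs]
    exact_mod_cast this)
  have h2 : aeval (Real.pi : ℂ) P = ((aeval Real.pi P : ℝ) : ℂ) :=
    aeval_algebraMap_apply ℂ Real.pi P
  rw [h2, Complex.norm_real, Real.norm_eq_abs] at h1
  refine h1.trans (mul_le_mul_of_nonneg_right ?_ (abs_nonneg _))
  rw [← Real.rpow_natCast]
  exact Real.rpow_le_rpow_of_exponent_le hH' hN

/-- **Main result.** -/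
theorem result :
    -- the approximable numbers form a field which contains `F`
    (∀ q : ℕ → ℕ, (∀ k, 2 ≤ q k) → ∀ (F : IntermediateField ℚ ℝ) [FiniteDimensional ℚ F],
      ∃ L : IntermediateField ℚ ℝ, F ≤ L ∧ ∀ x, x ∈ L ↔ Approximable q F x) ∧
    -- the transcendence degree of the field for the explicit sequence
    (∀ (F : IntermediateField ℚ ℝ) [FiniteDimensional ℚ F] (L : IntermediateField ℚ ℝ),
      (∀ x, x ∈ L ↔ Approximable q₀ F x) → Algebra.trdeg ℚ L = Cardinal.continuum) ∧
    -- Liouville numbers are approximable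
    (∀ ξ : ℝ, Liouville ξ → ∃ q : ℕ → ℕ, (∀ k, 2 ≤ q k) ∧ (∀ N, ∃ k, N ≤ q k) ∧
      ∀ F : IntermediateField ℚ ℝ, Approximable q F ξ) ∧
    -- `π` and the odd zeta values over fields of approximable numbers
    ∀ q : ℕ → ℕ, (∀ k, 2 ≤ q k) → (∀ N, ∃ k, N ≤ q k) →
      ∀ (F : IntermediateField ℚ ℝ) [FiniteDimensional ℚ F] (L : IntermediateField ℚ ℝ),
      (∀ x ∈ L, Approximable q F x) →
        Transcendental L Real.pi ∧
        ∀ b K s S v : ℕ, 1 ≤ K → 1 ≤ S →
          (2 : ℝ) ^ (132 * (finrank ℚ F * (v + S))) * ((b : ℝ) + 1) ^ 2 * ((K : ℝ) * S) ^ 3 *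
            Real.log ((K : ℝ) * S + 1) ≤ (s : ℝ) ^ 2 →
          (∀ (V : Submodule L ℝ) [Module.Finite L V], finrank L V ≤ v →
            ∃ J : Fin K → Finset ℕ, (∀ i i', i ≠ i' → Disjoint (J i) (J i')) ∧ ∀ i, (J i).card = S ∧
              (∀ j ∈ J i, b < j ∧ j ≤ s ∧ Odd j) ∧
              LinearIndependent L (fun j : J i => V.mkQ (zetaValue j))) ∧
          ∃ J : Fin K → Finset ℕ, (∀ i i', i ≠ i' → Disjoint (J i) (J i')) ∧ ∀ i, (J i).card = S ∧
            (∀ j ∈ J i, b < j ∧ j ≤ s ∧ Odd j) ∧
            LinearIndependent L (Sum.elim (fun n : Fin v => Real.pi ^ (n : ℕ))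
              (fun j : J i => zetaValue j)) := by
  refine ⟨fun q hq F _ => ⟨Pool.Agent.R347.LF.LL hq F, Pool.Agent.R347.LF.le_LL hq, fun x => Iff.rfl⟩,
    fun F _ L hL => Pool.Agent.R347.LF.trdeg_eq L fun A => (hL _).2 (Pool.Agent.R347.LF.xiL_ap F A),
    fun ξ hξ => Pool.Agent.R347.LF.liouville_ap hξ, fun q hq hunb F _ L hL => ?_⟩
  have htr : Transcendental L Real.pi := Pool.Agent.N449.LZ.trans (F := F) hq L hL meas_pi
  refine ⟨htr, fun b K s S v hK hS hs => ⟨fun V _ hV =>
    Pool.Agent.R347.LF.disjoint_sets (F := F) hq hunb L hL hK hS hs le_rfl V hV, ?_⟩⟩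
  set V : Submodule L ℝ := Submodule.span L (Set.range fun n : Fin v => Real.pi ^ (n : ℕ)) with hVdef
  have hfin : Module.Finite L V := FiniteDimensional.span_of_finite L (Set.finite_range _)
  have hVv : finrank L V ≤ v := by
    have := finrank_range_le_card (R := L) (fun n : Fin v => Real.pi ^ (n : ℕ))
    rwa [Fintype.card_fin] at this
  obtain ⟨J, hJ1, hJ2⟩ := Pool.Agent.R347.LF.disjoint_sets (F := F) hq hunb L hL hK hS hs le_rfl V hVv
  refine ⟨J, hJ1, fun i => ⟨(hJ2 i).1, (hJ2 i).2.1, ?_⟩⟩
  have hpow : LinearIndependent L (fun n : ℕ => Real.pi ^ n) := by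
    have h2 : LinearIndependent L (fun n : ℕ => aeval (R := L) Real.pi (X ^ n : L[X])) := by
      have h3 : LinearIndependent L (fun n : ℕ => (X ^ n : L[X])) := by
        have h4 := (Polynomial.basisMonomials L).linearIndependent
        have h5 : (fun n : ℕ => (X ^ n : L[X])) = (Polynomial.basisMonomials L) := by
          funext n
          rw [Polynomial.coe_basisMonomials]
          exact Polynomial.X_pow_eq_monomial n
        rw [h5]
        exact h4
      have h6 := h3.map' (aeval (R := L) Real.pi).toLinearMap (LinearMap.ker_eq_bot.2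
        (transcendental_iff_injective.1 htr))
      exact h6
    simpa using h2
  have hpow' : LinearIndependent L (fun n : Fin v => Real.pi ^ (n : ℕ)) :=
    hpow.comp (fun n : Fin v => (n : ℕ)) Fin.val_injective
  have hf : LinearIndependent L (fun n : Fin v => (⟨Real.pi ^ (n : ℕ), Submodule.subset_span ⟨n, rfl⟩⟩ : V)) := by
    have h7 : LinearIndependent L (V.subtype ∘
        (fun n : Fin v => (⟨Real.pi ^ (n : ℕ), Submodule.subset_span ⟨n, rfl⟩⟩ : V))) := hpow'
    exact LinearIndependent.of_comp V.subtype h7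
  exact LinearIndependent.sumElim_of_quotient hf _ (hJ2 i).2.2

end Pool.Agent.Results.MP_a89d6d_nt.NumberFieldLiouville
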